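import Pool.Agent.H35.FC.Stm

/-!
# A factorization of a common divisor of products
-/

set_option autoImplicit false

namespace Pool.Agent.H86.OF

/-- If `Q` divides all products `A i * B j` then `Q = F * G` where `F` divides all `A i` and `G`
divides all `B j`. -/
theorem split_dvd {R : Type} [CommRing R] [IsDomain R] [UniqueFactorizationMonoid R]
    {ι κ : Type} (Q : R) :
    Q ≠ 0 → ∀ (A : ι → R) (B : κ → R), (∀ i j, Q ∣ A i * B j) →
      ∃ F G : R, Q = F * G ∧ (∀ i, F ∣ A i) ∧ ∀ j, G ∣ B j := by
  refine UniqueFactorizationMonoid.induction_on_prime Q (fun h => absurd rfl h) ?_ ?_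
  · intro x hx _ A B _
    exact ⟨x, 1, (mul_one x).symm, fun i => hx.dvd, fun j => one_dvd _⟩
  · intro a p ha hp ih _ A B hAB
    have hpd : ∀ i j, p ∣ A i * B j := fun i j => (dvd_mul_right p a).trans (hAB i j)
    by_cases hA : ∀ i, p ∣ A i
    · choose A' hA' using hA
      obtain ⟨F, G, h1, h2, h3⟩ := ih ha A' B (fun i j => by
        have h := hAB i j
        rw [hA' i, mul_assoc] at h
        exact (mul_dvd_mul_iff_left hp.ne_zero).1 h)
      refine ⟨p * F, G, by rw [h1, mul_assoc], fun i => ?_, h3⟩
      rw [hA' i]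
      exact mul_dvd_mul_left p (h2 i)
    · push Not at hA
      obtain ⟨i0, hi0⟩ := hA
      have hB : ∀ j, p ∣ B j := fun j => (hp.dvd_or_dvd (hpd i0 j)).resolve_left hi0
      choose B' hB' using hB
      obtain ⟨F, G, h1, h2, h3⟩ := ih ha A B' (fun i j => by
        have h := hAB i j
        rw [hB' j, mul_left_comm] at h
        exact (mul_dvd_mul_iff_left hp.ne_zero).1 h)
      refine ⟨F, p * G, by rw [h1]; ring, h2, fun j => ?_⟩
      rw [hB' j]
      exact mul_dvd_mul_left p (h3 j)

/-- Commutatively equal sets have equal numbers of words with `k` letters `y`. -/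
theorem card_eq {α : Type} [DecidableEq α] (y : α) {L M : Finset (List α)}
    (h : Pool.Agent.H35.FC.gf L = Pool.Agent.H35.FC.gf M) (k : ℕ) :
    (L.filter (fun w => w.count y = k)).card = (M.filter (fun w => w.count y = k)).card := by
  let φ : MvPolynomial α ℤ →+* Polynomial ℤ :=
    MvPolynomial.eval₂Hom Polynomial.C (fun x => if x = y then Polynomial.X else 1)
  have hX : ∀ x : α, φ (MvPolynomial.X x) = if x = y then Polynomial.X else 1 := by
    intro x
    simp [φ]
  have hw : ∀ w : List α, φ ((w.map MvPolynomial.X).prod) = Polynomial.X ^ (w.count y) := by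
    intro w
    induction w with
    | nil => simp
    | cons x w ih =>
      rw [List.map_cons, List.prod_cons, map_mul, ih, hX, List.count_cons]
      by_cases hx : x = y
      · subst hx
        simp [pow_succ, mul_comm]
      · simp [hx]
  have hL : ∀ L : Finset (List α), (φ (Pool.Agent.H35.FC.gf L)).coeff k =
      ((L.filter (fun w => w.count y = k)).card : ℤ) := by
    intro L
    unfold Pool.Agent.H35.FC.gf
    rw [map_sum, Polynomial.finsetSum_coeff, Finset.card_filter]
    push_cast
    refine Finset.sum_congr rfl fun w _ => ?_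
    rw [hw, Polynomial.coeff_X_pow]
    by_cases h : k = w.count y
    · simp [h]
    · rw [if_neg h, if_neg (fun h' => h h'.symm)]
  have h1 := hL L
  have h2 := hL M
  rw [h, h2] at h1
  exact_mod_cast h1.symm

end Pool.Agent.H86.OF
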