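import Pool.Agent.H86.OF.Core
import Pool.Agent.H86.OF.Ufd
import Pool.Agent.H72.OF.Alg
import Pool.Agent.H35.FY.Asm

/-!
# Assembly
-/

set_option autoImplicit false

namespace Pool.Agent.H86.OF

open MvPolynomial
open Pool.Agent.H35
open Pool.Agent.H35.FC (IsCode IsPrefixCode Facts Tiles gf SGf STree of_tiles)
open Pool.Agent.H35.FS (Setup RC LC Aset Bset Nset aset_finite bset_finite nset_finite partP
  aset_nonempty bset_nonempty SDeg SMax st_last setup_of_sync)
open Pool.Agent.H35.FY (A_cnt B_cnt mem_rev mem_star_rev code_rev mem_aset_rev mem_bset_rev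
  mem_nset_rev tiles_rev tiles_of_empty tilesF gf_cnt)

/-- The algebra: the letter `y` and the side. -/
theorem alg2 (hgf : SGf) {α : Type} [Fintype α] [DecidableEq α] (C : Finset (List α))
    (hC : IsCode (C : Set (List α)))
    (hI : ∀ F G : MvPolynomial α ℤ,
      1 - gf C = (1 - ∑ x : α, (X x : MvPolynomial α ℤ)) * (F * G) →
      ∃ y, degreeOf y F = 0 ∨ degreeOf y G = 0)
    (A B : List α → Finset (List α))
    (hT : ∀ g f, ∃ N : Finset (List α),
      Tiles (C : Set (List α)) (A g : Set (List α)) (B f : Set (List α)) (N : Set (List α)))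
    (hA : ∀ g, (A g).Nonempty) (hB : ∀ f, (B f).Nonempty)
    (d : α → ℕ) (hd2 : ∀ y, 2 ≤ d y) (hdle : ∀ y, ∀ w ∈ C, w.count y ≤ d y)
    (hdex : ∀ y, ∃ w ∈ C, w.count y = d y)
    (hA1 : ∀ y g, ∀ v ∈ A (g ++ [y]), v.count y ≤ d y - 1)
    (hB1 : ∀ y f, ∀ v ∈ B (y :: f), v.count y ≤ d y - 1) :
    ∃ y : α, ((∀ g g', gf (A (g ++ [y])) = gf (A (g' ++ [y]))) ∧
        ∀ g, ∃ v ∈ A (g ++ [y]), v.count y = d y - 1) ∨
      ((∀ f f', gf (B (y :: f)) = gf (B (y :: f'))) ∧
        ∀ f, ∃ v ∈ B (y :: f), v.count y = d y - 1) := by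
  choose N hN using hT
  have hos : (1 - ∑ x : α, (X x : MvPolynomial α ℤ)) = H72.OF.os α := rfl
  have hos0 : H72.OF.os α ≠ 0 := by
    rw [← hos]
    exact FY.one_sub_ne
  have hgf' : ∀ g f, 1 - gf C =
      H72.OF.os α * ((1 - gf C) * gf (N g f) + gf (A g) * gf (B f)) := by
    intro g f
    rw [← hos]
    exact hgf α C (A g) (B f) (N g f) hC (hN g f)
  obtain ⟨Q, hQ⟩ : ∃ Q, Q = (1 - gf C) * gf (N [] []) + gf (A []) * gf (B []) := ⟨_, rfl⟩
  have hcQ : 1 - gf C = H72.OF.os α * Q := by rw [hQ]; exact hgf' [] []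
  have hGF : ∀ g f, gf (A g) * gf (B f) = Q * (1 - H72.OF.os α * gf (N g f)) := by
    intro g f
    have h1 := hgf' g f
    rw [hcQ] at h1
    have h2 := mul_left_cancel₀ hos0 h1
    linear_combination -h2
  have hC0 : 1 - gf C ≠ 0 := by
    intro h
    have h1 := congrArg (coeff 0) h
    rw [coeff_sub, coeff_one, if_pos rfl, coeff_zero, H72.OF.coeff_gf] at h1
    have h2 : (C.filter (fun w => H72.OF.vec w = 0)).card = 0 := by
      rw [Finset.card_eq_zero, Finset.filter_eq_empty_iff]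
      intro w hw h3
      have hw0 : w = [] := by
        rcases w with _ | ⟨x, w⟩
        · rfl
        · have h4 := H72.OF.vec_apply (x :: w) x
          rw [h3, List.count_cons_self] at h4
          simp at h4
      rw [hw0] at hw
      exact hC.1 (by exact_mod_cast hw)
    rw [h2] at h1
    norm_num at h1
  have hQ0 : Q ≠ 0 := by
    intro h
    rw [h, mul_zero] at hcQ
    exact hC0 hcQ
  obtain ⟨F, G, hFG, hF, hG⟩ := split_dvd Q hQ0 (fun g => gf (A g)) (fun f => gf (B f))
    (fun g f => by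
      rw [hGF g f]
      exact dvd_mul_right _ _)
  have hF0 : F ≠ 0 := by
    rintro rfl
    rw [zero_mul] at hFG
    exact hQ0 hFG
  have hG0 : G ≠ 0 := by
    rintro rfl
    rw [mul_zero] at hFG
    exact hQ0 hFG
  obtain ⟨y, hy⟩ := hI F G (by rw [hos, ← hFG]; exact hcQ)
  have hQd : degreeOf y Q = d y - 1 := by
    have hdeg1 : degreeOf y (1 - gf C) = d y :=
      H72.OF.degreeOf_one_sub_gf (hdle y) (hdex y) (by have := hd2 y; omega)
    rw [hcQ, degreeOf_mul_eq hos0 hQ0, H72.OF.degreeOf_os] at hdeg1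
    omega
  have hsum : degreeOf y F + degreeOf y G = d y - 1 := by
    rw [hFG, degreeOf_mul_eq hF0 hG0] at hQd
    exact hQd
  refine ⟨y, ?_⟩
  rcases hy with hy | hy
  · right
    exact H72.OF.side y (hd2 y) (hFG.trans (mul_comm F G)) hG0 (by omega) (fun f => B (y :: f))
      (A []) (fun f => gf (N [] (y :: f))) (fun f => hB _) (hA []) (hB1 y)
      (fun f => by rw [mul_comm]; exact hGF [] (y :: f)) (fun f => hG (y :: f))
  · left
    exact H72.OF.side y (hd2 y) hFG hF0 (by omega) (fun g => A (g ++ [y]))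
      (B []) (fun g => gf (N (g ++ [y]) [])) (fun g => hA _) (hB []) (hA1 y)
      (fun g => hGF (g ++ [y]) []) (fun g => hF (g ++ [y]))

theorem setup_rev {α : Type} {C : Set (List α)} {l r : List α} (hS : Setup C l r) :
    Setup (List.reverse '' C) r.reverse l.reverse := by
  refine ⟨hS.fin.image _, code_rev hS.code, ?_, ?_, ?_, ?_, ?_⟩
  · rw [mem_star_rev, List.reverse_reverse]
    exact hS.rmem
  · rw [mem_star_rev, List.reverse_reverse]
    exact hS.lmem
  · simpa using hS.rne
  · simpa using hS.lne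
  · intro w
    rw [mem_star_rev]
    have := hS.comp w.reverse
    simpa only [List.reverse_append, List.reverse_reverse, List.append_assoc] using this

/-- The left side. -/
theorem sideA {α : Type} [DecidableEq α] {C : Set (List α)} {l r : List α} {y : α} {d : ℕ}
    (hS : Setup C l r) (hd2 : 2 ≤ d) (hdle : ∀ w ∈ C, w.count y ≤ d)
    (hne : (Nset C l r ([] ++ [y]) []).Nonempty)
    (hcard : ∀ g g' : List α,
      ((aset_finite hS (g ++ [y])).toFinset.filter (fun w => w.count y = d - 1)).card =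
      ((aset_finite hS (g' ++ [y])).toFinset.filter (fun w => w.count y = d - 1)).card)
    (hD : ∀ g : List α, ∃ v ∈ Aset C l (g ++ [y]), v.count y = d - 1) :
    ∃ S P : Set (List α), S.Finite ∧ P.Finite ∧ Tiles C S P ∅ := by
  obtain ⟨v, hv, hc⟩ := hD [y]
  exact endP hS hne (leftP hS hd2 hdle ⟨v, dset_nonempty hdle hv hc hd2, hc⟩ hcard)

/-- The right side. -/
theorem sideB {α : Type} [DecidableEq α] {C : Set (List α)} {l r : List α} {y : α} {d : ℕ}
    (hS : Setup C l r) (hd2 : 2 ≤ d) (hdle : ∀ w ∈ C, w.count y ≤ d)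
    (hne : (Nset C l r [] ([y] ++ [])).Nonempty)
    (hcard : ∀ f f' : List α,
      ((bset_finite hS (y :: f)).toFinset.filter (fun w => w.count y = d - 1)).card =
      ((bset_finite hS (y :: f')).toFinset.filter (fun w => w.count y = d - 1)).card)
    (hD : ∀ f : List α, ∃ v ∈ Bset C r (y :: f), v.count y = d - 1) :
    ∃ S P : Set (List α), S.Finite ∧ P.Finite ∧ Tiles C S P ∅ := by
  have hS' := setup_rev hS
  have hE : ∀ g : List α, ((aset_finite hS' (g ++ [y])).toFinset.filter
      (fun w => w.count y = d - 1)).card = ((bset_finite hS (y :: g.reverse)).toFinset.filter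
      (fun w => w.count y = d - 1)).card := by
    intro g
    rw [← Finset.card_image_of_injective ((bset_finite hS (y :: g.reverse)).toFinset.filter
      (fun w => w.count y = d - 1)) List.reverse_injective]
    congr 1
    ext w
    rw [Finset.mem_filter, Set.Finite.mem_toFinset, Finset.mem_image, mem_aset_rev]
    constructor
    · rintro ⟨h1, h2⟩
      refine ⟨w.reverse, ?_, List.reverse_reverse w⟩
      rw [Finset.mem_filter, Set.Finite.mem_toFinset, List.count_reverse]
      exact ⟨by simpa using h1, h2⟩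
    · rintro ⟨v, hv, rfl⟩
      rw [Finset.mem_filter, Set.Finite.mem_toFinset] at hv
      rw [List.reverse_reverse, List.count_reverse]
      exact ⟨by simpa using hv.1, hv.2⟩
  obtain ⟨S, P, hSf, hPf, hT⟩ := sideA (y := y) (d := d) hS' hd2 (by
    intro w hw
    have := hdle _ ((mem_rev C w).1 hw)
    rwa [List.count_reverse] at this) (by
    obtain ⟨u, hu⟩ := hne
    refine ⟨u.reverse, (mem_nset_rev C l r _ _ _).2 ?_⟩
    simpa using hu) (by
    intro g g'
    rw [hE g, hE g']
    exact hcard _ _) (by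
    intro g
    obtain ⟨v, hv, hc⟩ := hD g.reverse
    refine ⟨v.reverse, ?_, by rw [List.count_reverse]; exact hc⟩
    rw [mem_aset_rev, List.reverse_reverse]
    simpa using hv)
  exact ⟨_, _, hPf.image _, hSf.image _, tiles_rev hT⟩

/-- Such a code is factorizing. -/
theorem factP (hgf : SGf) (hdeg : SDeg) {α : Type} [Fintype α] [DecidableEq α]
    {C : Finset (List α)} {l r : List α} (hS : Setup (C : Set (List α)) l r)
    (hI : ∀ F G : MvPolynomial α ℤ,
      1 - gf C = (1 - ∑ x : α, (X x : MvPolynomial α ℤ)) * (F * G) →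
      ∃ y, degreeOf y F = 0 ∨ degreeOf y G = 0) :
    ∃ S P : Set (List α), S.Finite ∧ P.Finite ∧ Tiles (C : Set (List α)) S P ∅ := by
  by_cases hN : ∃ g f, Nset (C : Set (List α)) l r g f = ∅
  · obtain ⟨g, f, hgf⟩ := hN
    exact tiles_of_empty hS hgf
  have hne : ∀ g f, (Nset (C : Set (List α)) l r g f).Nonempty := by
    intro g f
    rw [Set.nonempty_iff_ne_empty]
    exact fun h => hN ⟨g, f, h⟩
  have hCne : C.Nonempty := by
    obtain ⟨x, p, -, hp, -⟩ := st_last hS.lmem hS.lne
    exact ⟨p, by exact_mod_cast hp⟩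
  have hmax : ∀ y : α, ∃ c0 ∈ C, ∀ c ∈ C, c.count y ≤ c0.count y :=
    fun y => Finset.exists_max_image C (fun w => w.count y) hCne
  choose c0 hc0 hc0max using hmax
  have hcle : ∀ y : α, ∀ w ∈ (C : Set (List α)), w.count y ≤ (c0 y).count y :=
    fun y w hw => hc0max y w (by exact_mod_cast hw)
  have hA1 : ∀ y g, ∀ v ∈ Aset (C : Set (List α)) l (g ++ [y]),
      1 + v.count y ≤ (c0 y).count y := fun y g v hv => A_cnt (hcle y) hv
  have hB1 : ∀ y f, ∀ v ∈ Bset (C : Set (List α)) r (y :: f),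
      1 + v.count y ≤ (c0 y).count y := fun y f v hv => B_cnt (hcle y) hv
  have hd2 : ∀ y : α, 2 ≤ (c0 y).count y := by
    intro y
    obtain ⟨u, hu⟩ := hne ([] ++ [y]) (y :: [])
    obtain ⟨v, hv⟩ := aset_nonempty hS ([] ++ [y])
    have h1 := hA1 y [] v hv
    have h2 := gf_cnt (y := y) (k := (c0 y).count y - 1) (k' := (c0 y).count y - 1) hdeg hS
      (fun v hv => by
        have := hA1 y [] v hv
        omega)
      (fun v hv => by
        have := hB1 y [] v hv
        omega) hu (c := c0 y) (by exact_mod_cast hc0 y)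
    omega
  obtain ⟨y, ⟨h1, h2⟩ | ⟨h1, h2⟩⟩ := alg2 hgf C hS.code hI
    (fun g => (aset_finite hS g).toFinset) (fun f => (bset_finite hS f).toFinset)
    (fun g f => tilesF hS g f)
    (fun g => by
      obtain ⟨v, hv⟩ := aset_nonempty hS g
      exact ⟨v, (Set.Finite.mem_toFinset _).2 hv⟩)
    (fun f => by
      obtain ⟨v, hv⟩ := bset_nonempty hS f
      exact ⟨v, (Set.Finite.mem_toFinset _).2 hv⟩)
    (fun y => (c0 y).count y) hd2 (fun y w hw => hc0max y w hw)
    (fun y => ⟨c0 y, hc0 y, rfl⟩)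
    (fun y g v hv => by
      have := hA1 y g v ((Set.Finite.mem_toFinset _).1 hv)
      omega)
    (fun y f v hv => by
      have := hB1 y f v ((Set.Finite.mem_toFinset _).1 hv)
      omega)
  · exact sideA hS (hd2 y) (hcle y) (hne _ _) (fun g g' => card_eq y (h1 g g') _)
      (fun g => by
        obtain ⟨v, hv, hc⟩ := h2 g
        exact ⟨v, (Set.Finite.mem_toFinset _).1 hv, hc⟩)
  · exact sideB hS (hd2 y) (hcle y) (hne _ _) (fun f f' => card_eq y (h1 f f') _)
      (fun f => by
        obtain ⟨v, hv, hc⟩ := h2 f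
        exact ⟨v, (Set.Finite.mem_toFinset _).1 hv, hc⟩)

theorem assembly (hMax : SMax) (hGf : SGf) (hTree : STree) (hdeg : SDeg)
    {α : Type} [Fintype α] [DecidableEq α] (C : Finset (List α))
    (hC : IsCode (C : Set (List α)))
    (hmax : ∀ D : Set (List α), IsCode D → (C : Set (List α)) ⊆ D → D = C)
    (hs : ∃ x ∈ FC.Star (C : Set (List α)), ∃ y ∈ FC.Star (C : Set (List α)), ∀ u v,
      u ++ x ++ y ++ v ∈ FC.Star (C : Set (List α)) →
        u ++ x ∈ FC.Star (C : Set (List α)) ∧ y ++ v ∈ FC.Star (C : Set (List α)))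
    (hI : ∀ F G : MvPolynomial α ℤ,
      1 - gf C = (1 - ∑ x : α, (X x : MvPolynomial α ℤ)) * (F * G) →
      ∃ y, degreeOf y F = 0 ∨ degreeOf y G = 0) :
    (∃ S P : Set (List α), S.Finite ∧ P.Finite ∧ Tiles (C : Set (List α)) S P ∅) ∧
    ∃ D : Finset (List α), IsPrefixCode (D : Set (List α)) ∧
      ∃ F : List α → List α, Set.BijOn F C D ∧ ∀ w ∈ C, (F w).Perm w := by
  have hcomp := hMax α C hC hmax
  rcases isEmpty_or_nonempty α with he | ⟨⟨z⟩⟩
  · exfalso
    have hC0 : C = ∅ := by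
      rw [Finset.eq_empty_iff_forall_notMem]
      intro w hw
      have hw0 : w = [] := by
        rcases w with _ | ⟨x, w⟩
        · rfl
        · exact he.elim x
      rw [hw0] at hw
      exact hC.1 (by exact_mod_cast hw)
    obtain ⟨y, -⟩ := hI 1 1 (by
      rw [hC0]
      simp [gf])
    exact he.elim y
  obtain ⟨c, hc⟩ : ∃ c, c ∈ (C : Set (List α)) := by
    obtain ⟨u, v, h⟩ := hcomp [z]
    obtain ⟨x, p, -, hp, -⟩ := st_last h (by simp)
    exact ⟨p, hp⟩
  obtain ⟨x0, hx0, y0, hy0, hsync⟩ := hs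
  have hS := setup_of_sync C.finite_toSet hC hcomp hx0 hy0 hc hsync
  obtain ⟨S, P, hSf, hPf, hT⟩ := factP hGf hdeg hS hI
  exact ⟨⟨S, P, hSf, hPf, hT⟩, of_tiles hGf hTree C hC S P hSf hPf hT⟩

end Pool.Agent.H86.OF
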