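import Pool.Agent.H35.FY.Left

/-!
# Contexts which end with `y` and words with a maximal number of letters `y`
-/

set_option autoImplicit false

namespace Pool.Agent.H86.OF

open Pool.Agent.H35
open Pool.Agent.H35.FC (IsCode Facts Tiles star_nil star_append star_of_mem split cut)
open Pool.Agent.H35.FS (Setup RC LC Aset Bset Nset fac rc_of_aset lc_of_bset rc_star lc_star
  nil_mem_aset partP ncut acut A_snoc B_cons aset_finite bset_finite nset_finite)
open Pool.Agent.H35.FY (A_cnt B_cnt mem_aset_append)

/-- Words of `C*` after a context. -/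
theorem facA {α : Type} {C : Set (List α)} {l r : List α} (hS : Setup C l r) {g w : List α}
    (hw : RC C l (g ++ w)) : ∃ s ∈ Aset C l g, ∃ c ∈ FC.Star C, s ++ c = w := by
  rw [RC, ← List.append_assoc] at hw
  rcases split α C (l ++ g) w hw with ⟨h0, h1⟩ | ⟨X, p, s, Y, hX, hY, hp, hs, hc, e1, e2⟩
  · exact ⟨[], (nil_mem_aset hS g).2 h0, w, h1, by simp⟩
  · exact ⟨s, ⟨X, p, hX, hp, e1, hc⟩, Y, hY, e2.symm⟩

/-- Some codeword begins with `y` and has `d` letters `y`. -/
theorem dset_nonempty {α : Type} [DecidableEq α] {C : Set (List α)} {l : List α} {y : α} {d : ℕ}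
    (hdle : ∀ w ∈ C, w.count y ≤ d) {v : List α} (hv : v ∈ Aset C l ([y] ++ [y]))
    (hc : v.count y = d - 1) (hd2 : 2 ≤ d) : y :: v ∈ C := by
  rcases A_snoc hv with h | ⟨-, h⟩
  · exfalso
    have h1 := A_cnt (g := []) hdle (by simpa using h)
    rw [List.count_cons_self] at h1
    omega
  · exact h

/-- Two contexts whose completions agree below the length of `x0`, and not for `x0`. -/
theorem left_aux {α : Type} [DecidableEq α] {C : Set (List α)} {l r : List α} {y : α} {d : ℕ}
    (hS : Setup C l r) (hd2 : 2 ≤ d) (hdle : ∀ w ∈ C, w.count y ≤ d)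
    {g g' x0 : List α} (h1 : x0 ∈ Aset C l (g ++ [y])) (h2 : x0 ∉ Aset C l (g' ++ [y]))
    (h3 : ∀ z : List α, z.length < x0.length →
      (z ∈ Aset C l (g ++ [y]) ↔ z ∈ Aset C l (g' ++ [y]))) :
    ∀ v : List α, v.count y = d - 1 →
      (v ∈ Aset C l (g ++ [y] ++ (x0 ++ [y])) ↔
        (v ∈ Aset C l (g' ++ [y] ++ (x0 ++ [y])) ∨ y :: v ∈ C)) ∧
      ¬ (v ∈ Aset C l (g' ++ [y] ++ (x0 ++ [y])) ∧ y :: v ∈ C) := by
  have hrc : ∀ z : List α, z.length < x0.length →
      (RC C l (g ++ [y] ++ z) ↔ RC C l (g' ++ [y] ++ z)) := by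
    intro z hz
    constructor
    · intro h
      obtain ⟨s, hs, c, hc, rfl⟩ := facA hS h
      rw [← List.append_assoc]
      refine rc_star (rc_of_aset ((h3 s ?_).1 hs)) hc
      rw [List.length_append] at hz
      omega
    · intro h
      obtain ⟨s, hs, c, hc, rfl⟩ := facA hS h
      rw [← List.append_assoc]
      refine rc_star (rc_of_aset ((h3 s ?_).2 hs)) hc
      rw [List.length_append] at hz
      omega
  have hr0 : RC C l (g ++ [y] ++ x0) := rc_of_aset h1
  have hr0' : ¬ RC C l (g' ++ [y] ++ x0) := by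
    intro h
    obtain ⟨s, hs, c, hc, e⟩ := facA hS h
    rcases eq_or_ne c [] with rfl | hcn
    · rw [List.append_nil] at e
      rw [e] at hs
      exact h2 hs
    · have hlen : s.length < x0.length := by
        rw [← e, List.length_append]
        have := List.length_pos_iff.2 hcn
        omega
      have hs' := (h3 s hlen).2 hs
      have hl0 : LC C r [] := by simpa [LC] using hS.rmem
      refine acut hS (g := g ++ [y]) (v1 := s) (v2 := c) (t := []) (f := [])
        (by rw [e]; exact h1) hcn (rc_of_aset hs') ?_ (by simpa using hl0)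
      rw [List.append_nil]
      exact lc_star hc hl0
  have hA : ∀ (k : List α) (v : List α), v.count y = d - 1 →
      (v ∈ Aset C l (k ++ [y] ++ (x0 ++ [y])) ↔
        ((RC C l (k ++ [y] ++ x0) ∧ y :: v ∈ C) ∨
          ∃ z1 z2, x0 ++ [y] = z1 ++ z2 ∧ z1.length < x0.length ∧
            RC C l (k ++ [y] ++ z1) ∧ z2 ++ v ∈ C)) := by
    intro k v hv
    rw [mem_aset_append]
    constructor
    · rintro (h | ⟨z1, z2, e, hz, hr, hc⟩)
      · exfalso
        have h4 := A_cnt hdle h
        rw [List.count_append, List.count_append, List.count_singleton_self] at h4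
        omega
      · rcases lt_or_ge z1.length x0.length with h | h
        · exact Or.inr ⟨z1, z2, e, h, hr, hc⟩
        · left
          have l1 := congrArg List.length e
          simp only [List.length_append, List.length_cons, List.length_nil] at l1
          have hz' := List.length_pos_iff.2 hz
          obtain ⟨e1, e2⟩ := List.append_inj e (by omega)
          subst e1 e2
          exact ⟨hr, hc⟩
    · rintro (⟨hr, hc⟩ | ⟨z1, z2, e, hz, hr, hc⟩)
      · exact Or.inr ⟨x0, [y], rfl, by simp, hr, hc⟩
      · refine Or.inr ⟨z1, z2, e, ?_, hr, hc⟩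
        rintro rfl
        have l1 := congrArg List.length e
        simp only [List.length_append, List.length_cons, List.length_nil] at l1
        omega
  intro v hv
  rw [hA g v hv, hA g' v hv]
  have hE : (∃ z1 z2, x0 ++ [y] = z1 ++ z2 ∧ z1.length < x0.length ∧
      RC C l (g ++ [y] ++ z1) ∧ z2 ++ v ∈ C) ↔
      (∃ z1 z2, x0 ++ [y] = z1 ++ z2 ∧ z1.length < x0.length ∧
      RC C l (g' ++ [y] ++ z1) ∧ z2 ++ v ∈ C) := by
    constructor
    · rintro ⟨z1, z2, e, hz, hr, hc⟩
      exact ⟨z1, z2, e, hz, (hrc z1 hz).1 hr, hc⟩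
    · rintro ⟨z1, z2, e, hz, hr, hc⟩
      exact ⟨z1, z2, e, hz, (hrc z1 hz).2 hr, hc⟩
  refine ⟨?_, ?_⟩
  · rw [hE]
    constructor
    · rintro (⟨-, h⟩ | h)
      · exact Or.inr h
      · exact Or.inl (Or.inr h)
    · rintro ((⟨h, -⟩ | h) | h)
      · exact absurd h hr0'
      · exact Or.inr h
      · exact Or.inl ⟨hr0, h⟩
  · rintro ⟨⟨h, -⟩ | h, hy⟩
    · exact hr0' h
    · obtain ⟨z1, z2, e, hz, hr, hc⟩ := hE.2 h
      have key := cut α C hS.code (l ++ (g ++ [y] ++ x0)) (y :: v) (l ++ (g ++ [y] ++ z1))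
        (z2 ++ v) [] hr0 (star_of_mem hy) hr hc star_nil (by
          have : x0 ++ (y :: v) = z1 ++ (z2 ++ v) := by
            rw [← List.append_assoc, ← e]
            simp
          simp only [List.append_assoc, List.append_nil, this])
      have l1 := congrArg List.length e
      simp only [List.length_append, List.length_cons, List.length_nil] at l1 key
      have hv1 : 0 < v.length := by
        rw [List.length_pos_iff]
        rintro rfl
        simp only [List.count_nil] at hv
        omega
      omega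

/-- The completions of all contexts which end with `y` are the same, if the numbers of their
completions with `d - 1` letters `y` are the same. -/
theorem leftP {α : Type} [DecidableEq α] {C : Set (List α)} {l r : List α} {y : α} {d : ℕ}
    (hS : Setup C l r) (hd2 : 2 ≤ d) (hdle : ∀ w ∈ C, w.count y ≤ d)
    (hD : ∃ v : List α, y :: v ∈ C ∧ v.count y = d - 1)
    (hcard : ∀ g g' : List α,
      ((aset_finite hS (g ++ [y])).toFinset.filter (fun w => w.count y = d - 1)).card =
      ((aset_finite hS (g' ++ [y])).toFinset.filter (fun w => w.count y = d - 1)).card) :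
    ∀ g g' : List α, Aset C l (g ++ [y]) = Aset C l (g' ++ [y]) := by
  classical
  have key : ∀ G G' : List α, ¬ ∀ v : List α, v.count y = d - 1 →
      (v ∈ Aset C l (G ++ [y]) ↔ (v ∈ Aset C l (G' ++ [y]) ∨ y :: v ∈ C)) ∧
      ¬ (v ∈ Aset C l (G' ++ [y]) ∧ y :: v ∈ C) := by
    intro G G' h
    obtain ⟨v0, hv0, hc0⟩ := hD
    have hlt : ((aset_finite hS (G' ++ [y])).toFinset.filter (fun w => w.count y = d - 1)).card <
        ((aset_finite hS (G ++ [y])).toFinset.filter (fun w => w.count y = d - 1)).card := by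
      apply Finset.card_lt_card
      rw [Finset.ssubset_iff_of_subset]
      · refine ⟨v0, ?_, ?_⟩
        · rw [Finset.mem_filter, Set.Finite.mem_toFinset]
          exact ⟨(h v0 hc0).1.2 (Or.inr hv0), hc0⟩
        · rw [Finset.mem_filter, Set.Finite.mem_toFinset]
          rintro ⟨h1, -⟩
          exact (h v0 hc0).2 ⟨h1, hv0⟩
      · intro w hw
        rw [Finset.mem_filter, Set.Finite.mem_toFinset] at hw ⊢
        exact ⟨(h w hw.2).1.2 (Or.inl hw.1), hw.2⟩
    have := hcard G G'
    omega
  by_contra hall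
  push Not at hall
  obtain ⟨g, g', hne⟩ := hall
  have hex : ∃ n, ∃ x : List α, x.length = n ∧
      ¬ (x ∈ Aset C l (g ++ [y]) ↔ x ∈ Aset C l (g' ++ [y])) := by
    by_contra hcon
    push Not at hcon
    apply hne
    ext x
    exact hcon x.length x rfl
  obtain ⟨x0, hx0, hx1⟩ := Nat.find_spec hex
  have hmin : ∀ z : List α, z.length < x0.length →
      (z ∈ Aset C l (g ++ [y]) ↔ z ∈ Aset C l (g' ++ [y])) := by
    intro z hz
    rw [hx0] at hz
    by_contra hcon
    exact Nat.find_min hex hz ⟨z, rfl, hcon⟩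
  by_cases h1 : x0 ∈ Aset C l (g ++ [y])
  · have h2 : x0 ∉ Aset C l (g' ++ [y]) := fun h => hx1 ⟨fun _ => h, fun _ => h1⟩
    refine key (g ++ [y] ++ x0) (g' ++ [y] ++ x0) fun v hv => ?_
    have := left_aux hS hd2 hdle h1 h2 hmin v hv
    simpa only [List.append_assoc] using this
  · have h2 : x0 ∈ Aset C l (g' ++ [y]) := by
      by_contra h
      exact hx1 ⟨fun h' => absurd h' h1, fun h' => absurd h' h⟩
    refine key (g' ++ [y] ++ x0) (g ++ [y] ++ x0) fun v hv => ?_
    have := left_aux hS hd2 hdle h2 h1 (fun z hz => (hmin z hz).symm) v hv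
    simpa only [List.append_assoc] using this

/-- The end, if all contexts which end with `y` have the same completions. -/
theorem endP {α : Type} [DecidableEq α] {C : Set (List α)} {l r : List α} {y : α}
    (hS : Setup C l r) (hne : (Nset C l r ([] ++ [y]) []).Nonempty)
    (hA : ∀ g g' : List α, Aset C l (g ++ [y]) = Aset C l (g' ++ [y])) :
    ∃ S P : Set (List α), S.Finite ∧ P.Finite ∧ Tiles C S P ∅ := by
  obtain ⟨u, hu, hmax⟩ := (nset_finite hS ([] ++ [y]) []).exists_maximalFor
    (fun w => w.count y) _ hne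
  have hN : ∀ w, w ++ y :: u ∉ Nset C l r ([] ++ [y]) [] := by
    intro w hw
    have h1 : u.count y ≤ (w ++ y :: u).count y := by
      rw [List.count_append, List.count_cons_self]
      omega
    have h2 : (w ++ y :: u).count y ≤ u.count y := hmax hw h1
    rw [List.count_append, List.count_cons_self] at h2
    omega
  let P' : Set (List α) := {v | v ++ y :: u ∈ Bset C r []}
  have hex : ∀ w, ∃ t, t ∈ Facts (Aset C l ([] ++ [y])) (FC.Star C) P' w := by
    intro w
    obtain ⟨⟨x, c, β⟩, ⟨h1, h2, h3, h4⟩, -⟩ :=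
      (partP α C l r hS ([] ++ [y]) [] (w ++ y :: u)).2 (hN w)
    simp only at h1 h2 h3 h4
    have hno : ∀ z, u ≠ z ++ β := by
      intro z e1
      have e2 : x ++ c = w ++ y :: z := by
        rw [e1] at h4
        have h5 : (x ++ c) ++ β = (w ++ y :: z) ++ β := by
          rw [List.append_assoc, h4]
          simp
        exact List.append_cancel_right h5
      have h5 : RC C l (([] ++ [y]) ++ w ++ [y] ++ z) := by
        have h6 := rc_star (rc_of_aset h1) h2
        rw [List.append_assoc, e2] at h6
        simpa using h6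
      obtain ⟨s, hs, c', hc', e3⟩ := facA hS h5
      rw [hA (([] ++ [y]) ++ w) []] at hs
      refine ncut hS (g := [] ++ [y]) (f := []) (u1 := z) (u2 := β) (by rw [← e1]; exact hu)
        ?_ (lc_of_bset h3)
      rw [← e3, ← List.append_assoc]
      exact rc_star (rc_of_aset hs) hc'
    rw [← List.append_assoc] at h4
    rcases List.append_eq_append_iff.1 h4 with ⟨z, e1, e2⟩ | ⟨z, e1, e2⟩
    · -- `w = (x ++ c) ++ z`, `β = z ++ y :: u`
      refine ⟨⟨x, c, z⟩, h1, h2, ?_, ?_⟩
      · change z ++ y :: u ∈ Bset C r []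
        rw [← e2]
        exact h3
      · simp only
        rw [e1, List.append_assoc]
    · -- `x ++ c = w ++ z`, `y :: u = z ++ β`
      rcases z with _ | ⟨b, z⟩
      · refine ⟨⟨x, c, []⟩, h1, h2, ?_, ?_⟩
        · change [] ++ y :: u ∈ Bset C r []
          rw [List.nil_append]
          have e3 : y :: u = β := by simpa using e2
          rw [e3]
          exact h3
        · simp only
          simpa using e1
      · exfalso
        rw [List.cons_append, List.cons.injEq] at e2
        exact hno z e2.2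
  have hlift : ∀ w v c β, (v, c, β) ∈ Facts (Aset C l ([] ++ [y])) (FC.Star C) P' w →
      (v, c, β ++ y :: u) ∈ Facts (Aset C l ([] ++ [y])) (FC.Star C) (Bset C r [])
        (w ++ y :: u) := by
    rintro w v c β ⟨h1, h2, h3, h4⟩
    refine ⟨h1, h2, h3, ?_⟩
    simp only at h4 ⊢
    rw [← h4]; simp
  have hun : ∀ w t t', t ∈ Facts (Aset C l ([] ++ [y])) (FC.Star C) P' w →
      t' ∈ Facts (Aset C l ([] ++ [y])) (FC.Star C) P' w → t = t' := by
    rintro w ⟨v, c, β⟩ ⟨v', c', β'⟩ h h'
    have hun := (partP α C l r hS ([] ++ [y]) [] (w ++ y :: u)).2 (hN w)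
    have := hun.unique (hlift w v c β h) (hlift w v' c' β' h')
    simp only [Prod.mk.injEq, List.append_cancel_right_eq] at this ⊢
    exact this
  have hfinP : P'.Finite := by
    refine Set.Finite.preimage ?_ (bset_finite hS [])
    intro x _ z _ hxz
    simpa using hxz
  refine ⟨Aset C l ([] ++ [y]), P', aset_finite hS _, hfinP,
    fun w => ⟨fun h => h.elim, fun _ => ?_⟩⟩
  obtain ⟨t, ht⟩ := hex w
  exact ⟨t, ht, fun t' ht' => hun w t' t ht' ht⟩

end Pool.Agent.H86.OF
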